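import Pool.Agent.N929.EG.SzStm
import Pool.Agent.N507.EZ.Log

/-!
# EG/LGN: differences of the logarithm

By helper835.
-/

set_option autoImplicit false

namespace Pool.Agent.N835.EG

open Finset
open Pool.Agent.N929.EG
open Pool.Agent.N929.EZ (Df S_LOG)
open Pool.Agent.N278.EZ (Df_succ Df_zero)

theorem lgn : S_LGN := by
  intro s r hr
  have hB : (0 : ℝ) < 1 + s + s * r := by positivity
  obtain ⟨C, hC, H⟩ := Pool.Agent.N507.EZ.log_diff r hr (1 + s + s * r) hB
  refine ⟨C, hC, ?_⟩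
  intro n hn
  have hn1 : (1 : ℝ) ≤ n := by exact_mod_cast (by omega : 1 ≤ n)
  have hsq : 1 ≤ Real.sqrt n := by
    rw [Real.one_le_sqrt]
    exact hn1
  have hε0 : 0 < 1 / Real.sqrt n := by positivity
  have hε1 : 1 / Real.sqrt n ≤ 1 := by
    rw [div_le_one (by positivity)]
    exact hsq
  set f : ℕ → ℝ := fun j => ((n + s * j : ℕ) : ℝ) + 1 with hf
  have hfv : ∀ j, f j = (n : ℝ) + s * j + 1 := by
    intro j
    simp only [hf]
    push_cast
    ring
  have hpos : ∀ j, 0 < f j := by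
    intro j
    rw [hfv]
    positivity
  have h1 : ∀ m, Df 1 f m = -(s : ℝ) := by
    intro m
    rw [show (1 : ℕ) = 0 + 1 from rfl, Df_succ, Df_zero, Df_zero, hfv, hfv]
    push_cast
    ring
  have h2 : ∀ t m, Df (t + 2) f m = 0 := by
    intro t
    induction t with
    | zero =>
      intro m
      rw [show 0 + 2 = 1 + 1 from rfl, Df_succ, h1, h1, sub_self]
    | succ t ih =>
      intro m
      rw [show t + 1 + 2 = (t + 2) + 1 from rfl, Df_succ, ih, ih, sub_self]
  have key := H f 0 (1 / Real.sqrt n) hε0 hε1 (fun j _ => hpos _) (fun j _ => by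
    rw [hfv, hfv]
    have e0 : (0 : ℝ) ≤ (j : ℝ) := Nat.cast_nonneg j
    have e1 : (0 : ℝ) ≤ (s : ℝ) := Nat.cast_nonneg s
    have e2 : (0 : ℝ) ≤ (r : ℝ) := Nat.cast_nonneg r
    have e3 : (0 : ℝ) ≤ (s : ℝ) * j := mul_nonneg e1 e0
    have e4 : (0 : ℝ) ≤ (s : ℝ) * r := mul_nonneg e1 e2
    have e5 : (n : ℝ) + s * ((0 : ℕ) : ℝ) + 1 ≤ 1 * ((n : ℝ) + s * ((0 + j : ℕ) : ℝ) + 1) := by
      push_cast
      nlinarith
    refine e5.trans (mul_le_mul_of_nonneg_right (by linarith) ?_)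
    push_cast
    nlinarith) (fun t j htj => by
    have e1 : (0 : ℝ) ≤ (s : ℝ) := Nat.cast_nonneg s
    have e2 : (0 : ℝ) ≤ (r : ℝ) := Nat.cast_nonneg r
    have e4 : (0 : ℝ) ≤ (s : ℝ) * r := mul_nonneg e1 e2
    rcases t with _ | _ | t
    · rw [Df_zero, pow_zero, mul_one, hfv, hfv, abs_of_nonneg (by positivity)]
      push_cast
      have hj : (j : ℝ) ≤ r := by exact_mod_cast (by omega : j ≤ r)
      have e3 : (s : ℝ) * j ≤ s * r := mul_le_mul_of_nonneg_left hj e1
      have e5 : 0 ≤ ((s : ℝ) + s * r) * n := by positivity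
      nlinarith
    · rw [zero_add, h1, abs_neg, abs_of_nonneg e1, pow_one, hfv]
      have e6 : 1 ≤ 1 / Real.sqrt n * ((n : ℝ) + s * ((0 : ℕ) : ℝ) + 1) := by
        have e7 : Real.sqrt n * Real.sqrt n = n := Real.mul_self_sqrt (by linarith)
        have e8 : 0 < Real.sqrt n := by positivity
        rw [one_div, ← div_eq_inv_mul, le_div_iff₀ e8]
        push_cast
        nlinarith
      calc (s : ℝ) ≤ (1 + s + s * r) * 1 := by linarith
        _ ≤ (1 + s + s * r) * (1 / Real.sqrt n * ((n : ℝ) + s * ((0 : ℕ) : ℝ) + 1)) :=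
            mul_le_mul_of_nonneg_left e6 hB.le
        _ = _ := by ring
    · rw [show t + 1 + 1 = t + 2 from rfl, h2, abs_zero]
      have := hpos 0
      positivity)
  have e : Df r (fun j => Real.log (f j)) 0 = ∑ i ∈ range (r + 1), (-1 : ℝ) ^ i *
      (r.choose i : ℝ) * Real.log (((n + s * i : ℕ) : ℝ) + 1) := by
    unfold Df
    refine Finset.sum_congr rfl fun i _ => ?_
    rw [zero_add]
  rw [← e]
  exact key

end Pool.Agent.N835.EG
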